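import Pool.Agent.PX.Stmts

/-!
# Squad PX, row DSX: ideal power descent for forms with bounded interaction
-/

set_option autoImplicit false

namespace Pool.Agent.PX.H19

open MvPolynomial
open Pool.Agent.RS (FF io)
open Pool.Agent.PW (dd JUN RR FG Robust VV Piv del eul Ph Zer Free)

theorem inv_nat_mul {E : Type} [Field E] (n : ℕ) (x : FF E) :
    ((n : FF E))⁻¹ * x = ((n : E))⁻¹ • x := by
  rw [Algebra.smul_def, map_inv₀, map_natCast]

theorem nz_card {ρ s : ℕ} {Γ : ℕ → Finset ℕ} (hs : Sym s Γ) (z : Fin ρ → ℕ) :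
    (nz Γ z).card ≤ ρ * s := by
  unfold nz
  have h := Finset.card_biUnion_le_card_mul (Finset.univ : Finset (Fin ρ)) (fun b => Γ (z b)) s
    (fun b _ => hs.card (z b))
  rw [Finset.card_univ, Fintype.card_fin] at h
  exact h

theorem mem_nz {ρ s : ℕ} {Γ : ℕ → Finset ℕ} (hs : Sym s Γ) (z : Fin ρ → ℕ) (b : Fin ρ) :
    z b ∈ nz Γ z :=
  Finset.mem_biUnion.2 ⟨b, Finset.mem_univ b, hs.refl (z b)⟩

theorem dsx (hPIV : PixStmt) (hVAN : VaxStmt) (hEUF : EuxStmt) (hFNM : FnmStmt) : DsxStmt := by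
  intro c0 ρ c k g s
  refine ⟨c * (s + 1) + (g + ρ * s * c) + (k + ρ * s), g + ρ * s * c + c * s,
    g + ρ * s * c + ρ * (s * s), ?_⟩
  intro E _ _ Γ y G H hsym hGg hli hIG hrob hFG hRR hFi
  obtain ⟨_, hmc, _, _, hm0⟩ := Pool.Agent.PW.aFgm E
  obtain ⟨_, _, _, hn4, hn5⟩ := hFNM E s Γ hsym
  -- the membership in a linear subspace
  have hadd : ∀ (c : ℕ) (G : Finset ℕ) (v w : FF E), FG c G v → FG c G w → FG c G (v + w) := by
    intro c G v w hv hw
    obtain ⟨S, hS⟩ := Pool.Agent.PW.aFgs E c G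
    exact (hS _).1 (S.add_mem ((hS _).2 hv) ((hS _).2 hw))
  have hsm : ∀ (c : ℕ) (G : Finset ℕ) (r : E) (w : FF E), FG c G w → FG c G (r • w) := by
    intro c G r w hw
    obtain ⟨S, hS⟩ := Pool.Agent.PW.aFgs E c G
    exact (hS _).1 (S.smul_mem r ((hS _).2 hw))
  have hzero : ∀ (c : ℕ) (G : Finset ℕ), FG c G (0 : FF E) := by
    intro c G
    obtain ⟨S, hS⟩ := Pool.Agent.PW.aFgs E c G
    exact (hS _).1 S.zero_mem
  have hradd : ∀ (k : ℕ) (v w : FF E), RR k v → RR k w → RR k (v + w) := by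
    intro k v w hv hw
    obtain ⟨_, ⟨S, hS⟩, _⟩ := Pool.Agent.PW.aRrs E k
    exact (hS _).1 (S.add_mem ((hS _).2 hv) ((hS _).2 hw))
  have hrsm : ∀ (k : ℕ) (r : E) (w : FF E), RR k w → RR k (r • w) := by
    intro k r w hw
    obtain ⟨_, ⟨S, hS⟩, _⟩ := Pool.Agent.PW.aRrs E k
    exact (hS _).1 (S.smul_mem ((hS _).2 hw) r)
  have hrzero : ∀ (k : ℕ), RR k (0 : FF E) := by
    intro k
    obtain ⟨_, ⟨S, hS⟩, _⟩ := Pool.Agent.PW.aRrs E k
    exact (hS _).1 S.zero_mem
  have hrmono : ∀ (k k' : ℕ) (w : FF E), k ≤ k' → RR k w → RR k' w := by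
    intro k k' w hk hw
    exact (Pool.Agent.PW.aRrs E k).2.2.2.1 k' w hk hw
  -- the induction
  have key : ∀ l : ℕ, l ≤ c → ∃ (U : Finset ℕ) (Hl : FF E) (h : Fin ρ → FF E),
      U.card ≤ ρ * s * l ∧ FN Γ c (G ∪ U) Hl ∧ RR (k + ρ * s) Hl ∧
      H - Hl = ∑ a, io E (y a) * h a ∧
      (∀ a, FG (c * (s + 1) + (g + ρ * s * c) + (k + ρ * s)) ∅ (h a) ∧
        RR (c * (s + 1) + (g + ρ * s * c) + (k + ρ * s)) (h a)) ∧
      ∀ (J1 : Finset ℕ) (Fi : ℕ → FF E → Prop), G ∪ U ⊆ J1 → Filt c0 k y J1 Fi → Fi 1 H →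
        Fi (l + 1) Hl := by
    intro l
    induction l with
    | zero =>
      intro _
      refine ⟨∅, H, fun _ => 0, ?_, ?_, hrmono k _ H (Nat.le_add_right _ _) hRR, ?_, ?_, ?_⟩
      · rw [Finset.card_empty]; exact Nat.zero_le _
      · rw [Finset.union_empty]; exact hn4 _ _ _ hFG
      · rw [sub_self]
        symm
        apply Finset.sum_eq_zero
        intro a _
        rw [mul_zero]
      · intro a
        exact ⟨hzero _ _, hrzero _⟩
      · intro J1 Fi _ _ h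
        exact h
    | succ l ih =>
      intro hl
      obtain ⟨U, Hl, h, hU, hFl, hRl, hsub, hh, hJ⟩ := ih (by omega)
      obtain ⟨c1, rfl⟩ : ∃ c1, c = c1 + 1 := ⟨c - 1, by omega⟩
      have hlc : ρ * s * l + ρ * s ≤ ρ * s * (c1 + 1) := by
        have h1 : ρ * s * (l + 1) ≤ ρ * s * (c1 + 1) := Nat.mul_le_mul_left _ hl
        rw [Nat.mul_add, Nat.mul_one] at h1
        exact h1
      have hsc : (c1 + 1) * (s + 1) = c1 * (s + 1) + (s + 1) := by
        rw [Nat.add_mul, Nat.one_mul]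
      obtain ⟨z, hz, hzU⟩ := hPIV E ρ (g + ρ * s * (c1 + 1) + ρ * (s * s)) s Γ y hsym hli hIG hrob
        (G ∪ U) (by
          have h1 : (G ∪ U).card ≤ G.card + U.card := Finset.card_union_le G U
          omega)
      obtain ⟨hdel, hef, her⟩ := hEUF E ρ c1 (k + ρ * s) (l + 1) s Γ y (G ∪ U) z Hl hsym
        hIG hz hzU hFl hRl (Nat.le_add_left _ _)
      have himg : (nz Γ z).card ≤ ρ * s := nz_card hsym z
      refine ⟨U ∪ nz Γ z, eul y z (l + 1) Hl,
        fun a => h a + ((l + 1 : ℕ) : FF E)⁻¹ * del y z a Hl, ?_, ?_, her, ?_, ?_, ?_⟩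
      · have h1 : (U ∪ nz Γ z).card ≤ U.card + (nz Γ z).card :=
          Finset.card_union_le _ _
        rw [Nat.mul_add, Nat.mul_one]
        omega
      · rw [← Finset.union_assoc]
        exact hef
      · have h1 : H - eul y z (l + 1) Hl =
            (H - Hl) + ((l + 1 : ℕ) : FF E)⁻¹ * ∑ a, io E (y a) * del y z a Hl := by
          unfold eul
          ring
        rw [h1, hsub, Finset.mul_sum, ← Finset.sum_add_distrib]
        apply Finset.sum_congr rfl
        intro a _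
        ring
      · intro a
        obtain ⟨hd1, hd2⟩ := hdel a
        have hcard : (G ∪ U ∪ nz Γ z).card ≤ g + ρ * s * (c1 + 1) := by
          have h1 : (G ∪ U ∪ nz Γ z).card ≤
            (G ∪ U).card + (nz Γ z).card := Finset.card_union_le _ _
          have h2 : (G ∪ U).card ≤ G.card + U.card := Finset.card_union_le _ _
          omega
        have h3 : FG ((c1 + 1) * (s + 1) + (g + ρ * s * (c1 + 1)) + (k + ρ * s)) ∅
            (del y z a Hl) :=
          hmc _ _ ∅ _ (by omega) (hm0 _ _ _ (hn5 _ _ _ hd1))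
        constructor
        · show FG _ ∅ (h a + ((l + 1 : ℕ) : FF E)⁻¹ * del y z a Hl)
          rw [inv_nat_mul]
          exact hadd _ _ _ _ (hh a).1 (hsm _ _ _ _ h3)
        · show RR _ (h a + ((l + 1 : ℕ) : FF E)⁻¹ * del y z a Hl)
          rw [inv_nat_mul]
          exact hradd _ _ _ (hh a).2 (hrsm _ _ _ (hrmono _ _ _ (by omega) hd2))
      · intro J1 Fi hsubJ hF h1
        have hG1 : G ∪ U ⊆ J1 := by
          intro i hi
          apply hsubJ
          rw [← Finset.union_assoc]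
          exact Finset.mem_union_left _ hi
        have hN1 : nz Γ z ⊆ J1 := by
          intro i hi
          apply hsubJ
          rw [← Finset.union_assoc]
          exact Finset.mem_union_right _ hi
        have hz1 : ∀ b, z b ∈ J1 := fun b => hN1 (mem_nz hsym z b)
        have hz2 : ∀ a b, (pderiv (z b) (y a)).vars ⊆ J1 := by
          intro a b i hi
          exact hN1 (Finset.mem_biUnion.2 ⟨b, Finset.mem_univ b, hIG a (z b) hi⟩)
        exact hF.eul z hz hz1 hz2 (l + 1) Hl (Nat.succ_pos l) (hJ J1 Fi hG1 hF h1)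
  obtain ⟨U, Hc, h, hU, hFc, hRc, hsub, hh, hJ⟩ := key c le_rfl
  have hHc : Hc = 0 := by
    apply hVAN E ρ c0 k s Γ y c (G ∪ U) Hc hsym hFc
    intro J1 hJ1 hcard
    have hGJ : G ⊆ J1 := Finset.subset_union_left.trans hJ1
    obtain ⟨Fi, hF, hF1⟩ := hFi J1 hGJ (by
      have h2 : (G ∪ U).card ≤ G.card + U.card := Finset.card_union_le _ _
      omega)
    exact ⟨Fi, hF, hJ J1 Fi hJ1 hF hF1⟩
  rw [hHc, sub_zero] at hsub
  exact ⟨h, hsub, hh⟩

end Pool.Agent.PX.H19
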